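import Pool.Agent.Y787.AS.StrataFin
import Pool.Agent.Y787.AS.Var

/-!
# Points on varieties and translates of linear spaces: general form with parameters
-/

set_option autoImplicit false

namespace Pool.Agent.N778.VarT

open MvPolynomial Module
open Pool.Agent.W254.PA (Hyp)
open Pool.Agent.Y787.AS

section general

variable {k Cc : Type} [Field k] [Field Cc] [Algebra k Cc]

/-- exceptional points: zeros which are on no translate of dimension greater than `ρ` -/
def Exc (k : Type) {Cc : Type} [Field k] [Field Cc] [Algebra k Cc] {m τ r : ℕ}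
    (F : Fin r → MvPolynomial (Fin m ⊕ Fin τ) Cc) (ρ : ℕ) (y : Fin m → Cc) : Prop :=
  ∃ t : Fin τ → k, (∀ s, eval (Sum.elim y (fun a => algebraMap k Cc (t a))) (F s) = 0) ∧
    ¬ Big k F ρ y t

theorem exc_coord [CharZero k] [CharZero Cc] {Lt : Submodule k Cc} (hL : Hyp Lt)
    (hw : Wts' k Cc) {m N r τ ρ : ℕ} (hρ : ρ ≤ m) (l : Fin N → Cc) (hl : ∀ j, l j ∈ Lt)
    (hli : LinearIndependent k l) (F : Fin r → MvPolynomial (Fin m ⊕ Fin τ) Cc)
    (φ : Fin (ρ * N + (m - ρ) * (m - 1) + τ + 1) → ((Fin m × Fin N → k) →ₗ[k] k)) :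
    ∃ P : MvPolynomial (Fin (ρ * N + (m - ρ) * (m - 1) + τ + 1)) k, P ≠ 0 ∧
      ∀ b : Fin m → Fin N → k, Exc k F ρ (fun i => ∑ j, algebraMap k Cc (b i j) * l j) →
      eval (fun i => φ i (fun p => b p.1 p.2)) P = 0 := by
  classical
  rcases Nat.lt_or_ge (N + 1) m with h | h
  · obtain ⟨P, h1, h2⟩ := trivial_rel (by
      rw [finrank_fintype_fun_eq_card, Fintype.card_prod, Fintype.card_fin, Fintype.card_fin]
      obtain ⟨c, rfl⟩ : ∃ c, m = ρ + c := ⟨m - ρ, by omega⟩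
      rw [Nat.add_sub_cancel_left]
      have : c * N ≤ c * (ρ + c - 1) := Nat.mul_le_mul_left _ (by omega)
      have e1 : (ρ + c) * N = ρ * N + c * N := by ring
      omega) φ
    exact ⟨P, h1, fun b _ => h2 _⟩
  · obtain ⟨P, h1, h2⟩ := fam_coord (m := m) (N := N) (ρ := ρ) (τ := τ)
      (q := ρ * N + (m - ρ) * (m - 1) + τ + 1) hL hw l hl hli F (expo hρ h) φ
    exact ⟨P, h1, fun b ⟨t, ht1, ht2⟩ => h2 b t ht1 ht2⟩

/-- **Dimension.** -/
theorem exc_dim [CharZero k] [CharZero Cc] {Lt : Submodule k Cc} (hL : Hyp Lt)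
    (hw : Wts' k Cc) (W : Submodule k Cc) [FiniteDimensional k W] (hW : W ≤ Lt) {m r τ ρ : ℕ}
    (hρ : ρ ≤ m) (F : Fin r → MvPolynomial (Fin m ⊕ Fin τ) Cc)
    (φ : Fin (ρ * finrank k W + (m - ρ) * (m - 1) + τ + 1) → ((Fin m → W) →ₗ[k] k)) :
    ∃ P : MvPolynomial (Fin (ρ * finrank k W + (m - ρ) * (m - 1) + τ + 1)) k, P ≠ 0 ∧
      ∀ y : Fin m → W, Exc k F ρ (fun i => (y i : Cc)) → eval (fun i => φ i y) P = 0 := by
  obtain ⟨P, h1, h2⟩ := exc_coord hL hw hρ
    (fun j => (Module.finBasis k W j : Cc)) (fun j => hW (Module.finBasis k W j).2)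
    ((Module.finBasis k W).linearIndependent.map' W.subtype
      (LinearMap.ker_eq_bot.2 W.subtype_injective)) F (fun i => φ i ∘ₗ mkT m)
  refine ⟨P, h1, fun y hy => ?_⟩
  have h3 : (fun i => ∑ j, algebraMap k Cc ((Module.finBasis k W).repr (y i) j) *
      (Module.finBasis k W j : Cc)) = fun i => (y i : Cc) := by
    funext i
    have h4 := congrArg (fun w : W => (w : Cc)) ((Module.finBasis k W).sum_repr (y i))
    simp only [Submodule.coe_sum, Submodule.coe_smul, Algebra.smul_def] at h4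
    exact h4
  have h5 : mkT (k := k) (W := W) m (fun p => (Module.finBasis k W).repr (y p.1) p.2) = y := by
    funext i
    exact (Module.finBasis k W).sum_repr (y i)
  have h6 := h2 (fun i j => (Module.finBasis k W).repr (y i) j) (by
    rw [h3]; exact hy)
  simp only [LinearMap.comp_apply, h5] at h6
  exact h6

/-- **Counting.** -/
theorem exc_count [CharZero k] [CharZero Cc] {Lt : Submodule k Cc} (hL : Hyp Lt)
    (hw : Wts' k Cc) {m N r τ ρ : ℕ} (hρ : ρ ≤ m) (l : Fin N → Cc) (hl : ∀ j, l j ∈ Lt)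
    (hli : LinearIndependent k l) (F : Fin r → MvPolynomial (Fin m ⊕ Fin τ) Cc) :
    ∃ κ : ℕ, ∀ H : ℕ, 1 ≤ H →
      Set.ncard {A : Fin m → Fin N → ℤ | (∀ i j, |A i j| ≤ H) ∧
        Exc k F ρ (fun i => ∑ j, (A i j : Cc) * l j)} ≤
      κ * H ^ (ρ * N + (m - ρ) * (m - 1) + τ) := by
  classical
  have hcast : ∀ A : Fin m → Fin N → ℤ,
      (fun i => ∑ j, algebraMap k Cc ((A i j : ℤ) : k) * l j) =
      fun i => ∑ j, (A i j : Cc) * l j := by
    intro A
    funext i
    simp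
  obtain ⟨κ, hκ⟩ := Pool.Agent.Y787.HS.count_gen (K := k) (d := ρ * N + (m - ρ) * (m - 1) + τ)
    (σ := Fin m × Fin N)
    {x | Exc k F ρ (fun i => ∑ j, algebraMap k Cc (x (i, j)) * l j)} (by
      intro φ
      obtain ⟨P, h1, h2⟩ := exc_coord hL hw hρ l hl hli F φ
      exact ⟨P, h1, fun x hx => h2 (fun i j => x (i, j)) hx⟩)
  refine ⟨κ, fun H hH => ?_⟩
  have hfin : {A : Fin m → Fin N → ℤ | (∀ i j, |A i j| ≤ H) ∧
      Exc k F ρ (fun i => ∑ j, (A i j : Cc) * l j)}.Finite := box_finite' H _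
  rw [Set.ncard_eq_toFinset_card _ hfin]
  let g : (Fin m → Fin N → ℤ) → (Fin m × Fin N → ℤ) := fun A p => A p.1 p.2
  have hg : Function.Injective g := by
    intro A A' h
    funext i j
    exact congrFun h (i, j)
  rw [← Finset.card_image_of_injective _ hg]
  refine hκ H hH _ ?_
  intro a ha
  obtain ⟨A, hA, rfl⟩ := Finset.mem_image.1 ha
  rw [Set.Finite.mem_toFinset] at hA
  obtain ⟨h1, h2⟩ := hA
  refine ⟨fun p => h1 _ _, ?_⟩
  change Exc k F ρ (fun i => ∑ j, algebraMap k Cc ((A i j : ℤ) : k) * l j)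
  rw [hcast]
  exact h2

end general

/-- **Lower bound.** -/
theorem lower {E : Type} [Field E] [CharZero E] {m N r τ : ℕ} (l : Fin N → E)
    (F : Fin r → MvPolynomial (Fin m ⊕ Fin τ) E) (A₀ : Fin m → Fin N → ℤ) (t : Fin τ → E)
    (R : Submodule ℚ (Fin m → ℚ))
    (hR : ∀ s, ∀ c ∈ RE E R, eval (Sum.elim (fun i => ∑ j, (A₀ i j : E) * l j + c i) t) (F s) = 0) :
    ∃ κ : ℕ, 1 ≤ κ ∧ ∀ H : ℕ, κ ≤ H → H ^ (finrank ℚ R * N) ≤ κ *
      Set.ncard {A : Fin m → Fin N → ℤ | (∀ i j, |A i j| ≤ H) ∧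
        ∀ s, eval (Sum.elim (fun i => ∑ j, (A i j : E) * l j) t) (F s) = 0} := by
  let G : Fin r → MvPolynomial (Fin m) E := fun s =>
    aeval (Sum.elim (fun i => (X i : MvPolynomial (Fin m) E)) (fun a => C (t a))) (F s)
  have hG : ∀ (s : Fin r) (z : Fin m → E), eval z (G s) = eval (Sum.elim z t) (F s) := by
    intro s z
    have h1 : (eval z).comp (aeval (R := E) (Sum.elim (fun i => (X i : MvPolynomial (Fin m) E))
        (fun a => C (t a)))).toRingHom = eval (Sum.elim z t) := by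
      refine MvPolynomial.ringHom_ext (fun c => ?_) (fun i => ?_)
      · simp
      · rcases i with i | a <;> simp
    exact RingHom.congr_fun h1 (F s)
  obtain ⟨κ, h1, h2⟩ := var_lower l G A₀ R (by
    intro s c hc
    rw [hG]
    exact hR s c hc)
  refine ⟨κ, h1, fun H hH => (h2 H hH).trans (Nat.mul_le_mul_left _ ?_)⟩
  refine Set.ncard_le_ncard ?_ (box_finite' H _)
  rintro A ⟨h3, h4⟩
  refine ⟨h3, fun s => ?_⟩
  rw [← hG]
  exact h4 s

theorem countable_QC {E : Type} [Field E] [CharZero E] : Countable (algebraicClosure ℚ E) := by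
  have h : Set.Countable {x : E | IsAlgebraic ℚ x} := Algebraic.countable ℚ E
  have h2 : (algebraicClosure ℚ E : Set E) = {x : E | IsAlgebraic ℚ x} := by
    ext x
    exact mem_algebraicClosure_iff
  have h3 : Set.Countable (algebraicClosure ℚ E : Set E) := by rw [h2]; exact h
  exact h3.to_subtype

end Pool.Agent.N778.VarT
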